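import Pool.Agent.H137R2.TwoPow.Stage
set_option autoImplicit false

/-! Induction over the powers of two. -/

open scoped Classical
set_option linter.unusedSectionVars false
set_option linter.unusedVariables false

namespace H137.TwoPow

open H137.PFR

variable {V : Type*} [AddCommGroup V] [Fintype V]

theorem H_smul_push {Q : Type*} [AddCommGroup Q] [Fintype Q] {μ : V → ℝ} (φ : V →+ Q) :
    H (push μ φ) (fun y => y + y) = H μ (fun x => φ (x + x)) := by
  rw [H_push]
  simp only [map_add]

/-- For every `j` there is a subgroup `P` killed by `2^j` with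
`log |P| + 2 H (X mod P) ≤ H (X) + H (2^j X) + 49 j κ`. -/
theorem main {μ : V → ℝ} (hμ : Law μ) (j : ℕ) :
    ∃ P : AddSubgroup V, (∀ x ∈ P, (2 ^ j) • x = 0) ∧
      2 * entMod μ P + Real.log (Nat.card P) ≤
        ent μ + H μ (fun x : V => (2 ^ j) • x) + 49 * j * (hsub μ μ - ent μ) := by
  induction j with
  | zero =>
    refine ⟨⊥, ?_, ?_⟩
    · intro x hx
      rw [AddSubgroup.mem_bot] at hx
      rw [hx, smul_zero]
    · have h1 : entMod μ (⊥ : AddSubgroup V) = ent μ := by
        unfold entMod
        rw [← H_id μ]
        refine H_congr_of hμ fun x y => ?_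
        rw [QuotientAddGroup.eq, AddSubgroup.mem_bot, neg_add_eq_zero]
      have h2 : H μ (fun x : V => (2 ^ 0) • x) = ent μ := by
        rw [← H_id μ]
        refine H_congr_of hμ fun x y => ?_
        rw [pow_zero, one_smul, one_smul]
      rw [h1, h2, AddSubgroup.card_bot, Nat.cast_one, Real.log_one, Nat.cast_zero]
      linarith
  | succ j ih =>
    obtain ⟨P, hP, hP2⟩ := ih
    set π : V →+ V ⧸ P := QuotientAddGroup.mk' P with hπ
    have hν : Law (push μ π) := law_push hμ π
    obtain ⟨W, hW, hW2⟩ := stage hν
    have hκ := kappa_hom hμ π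
    have hent : ent (push μ π) = entMod μ P := rfl
    have hH : H μ π = entMod μ P := rfl
    -- the lift of multiplication by `2^j`
    set m : V →+ V := { toFun := fun x => (2 ^ j) • x, map_zero' := smul_zero _,
                        map_add' := fun x y => smul_add _ x y } with hm
    have hker : P ≤ m.ker := by
      intro x hx
      exact hP x hx
    set φ : V ⧸ P →+ V := QuotientAddGroup.lift P m hker with hφ
    have hφπ : ∀ x : V, φ (π x) = (2 ^ j) • x := fun x => rfl
    have hkey := key hν φ
    rw [hent] at hkey hW2
    rw [hH] at hκ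
    have e1 : H (push μ π) φ = H μ (fun x : V => (2 ^ j) • x) := by
      rw [H_push]
      simp only [hφπ]
    have e2 : H (push μ π) (fun y => φ (y + y)) = H μ (fun x : V => (2 ^ (j + 1)) • x) := by
      rw [H_push]
      refine H_congr_of hμ fun x y => ?_
      have e3 : ∀ x : V, φ (π x + π x) = (2 ^ (j + 1)) • x := by
        intro x
        rw [← map_add, hφπ, pow_succ, mul_smul, two_smul]
      rw [e3, e3]
    rw [e1, e2] at hkey
    refine ⟨W.comap π, ?_, ?_⟩
    · intro x hx
      have h1 : π (x + x) = 0 := by
        rw [map_add]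
        exact hW _ hx
      have h2 : x + x ∈ P := (QuotientAddGroup.eq_zero_iff (N := P) (x + x)).1 h1
      have h3 := hP _ h2
      rw [pow_succ, mul_smul, two_smul]
      exact h3
    · have hcard : Nat.card (W.comap π) = Nat.card P * Nat.card W := by
        have h1 : Nat.card (W.comap π) * Nat.card (V ⧸ W.comap π) = Nat.card V := by
          rw [mul_comm]
          exact (AddSubgroup.card_eq_card_quotient_mul_card_addSubgroup _).symm
        have h2 : Nat.card V = Nat.card (V ⧸ P) * Nat.card P :=
          AddSubgroup.card_eq_card_quotient_mul_card_addSubgroup _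
        have h3 : Nat.card (V ⧸ P) = Nat.card ((V ⧸ P) ⧸ W) * Nat.card W :=
          AddSubgroup.card_eq_card_quotient_mul_card_addSubgroup _
        have h4 : Nat.card (V ⧸ W.comap π) = Nat.card ((V ⧸ P) ⧸ W) := by
          have h5 := AddSubgroup.index_comap_of_surjective W (f := π) (QuotientAddGroup.mk'_surjective P)
          exact h5
        have h5 : 0 < Nat.card ((V ⧸ P) ⧸ W) := Nat.card_pos
        rw [h4, h2, h3] at h1
        have h6 : Nat.card ((V ⧸ P) ⧸ W) * Nat.card (W.comap π) =
            Nat.card ((V ⧸ P) ⧸ W) * (Nat.card P * Nat.card W) := by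
          rw [mul_comm, h1]
          ring
        exact Nat.eq_of_mul_eq_mul_left h5 h6
      have hmod : entMod μ (W.comap π) = entMod (push μ π) W := by
        unfold entMod
        rw [H_push]
        refine H_congr_of hμ fun x y => ?_
        rw [QuotientAddGroup.eq, QuotientAddGroup.eq, AddSubgroup.mem_comap, map_add, map_neg]
      have hlog : Real.log (Nat.card (W.comap π)) =
          Real.log (Nat.card P) + Real.log (Nat.card W) := by
        rw [hcard, Nat.cast_mul, Real.log_mul]
        · exact_mod_cast (Nat.card_pos (α := P)).ne'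
        · exact_mod_cast (Nat.card_pos (α := W)).ne'
      rw [hmod, hlog, Nat.cast_succ]
      nlinarith [hkey, hW2, hκ, hP2]

end H137.TwoPow
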