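import Pool.Agent.H137R2.TwoPow.Tools
set_option autoImplicit false

/-! Entropy inequalities for sums and differences in finite abelian groups. -/

open scoped Classical
set_option linter.unusedSectionVars false
set_option linter.unusedVariables false

namespace H137.TwoPow

open H137.PFR

variable {V Q R : Type*} [AddCommGroup V] [Fintype V] [AddCommGroup Q] [Fintype Q]
  [AddCommGroup R] [Fintype R]

/-- entropy of the difference of two independent variables -/
noncomputable def hsub (μ ν : V → ℝ) : ℝ := H (prod μ ν) (fun p : V × V => p.1 - p.2)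

theorem hsub_comm (μ ν : V → ℝ) (hμ : Law μ) (hν : Law ν) : hsub μ ν = hsub ν μ := by
  unfold hsub
  rw [H_swap]
  refine H_congr_of (law_prod hν hμ) fun p q => ?_
  change p.2 - p.1 = q.2 - q.1 ↔ p.1 - p.2 = q.1 - q.2
  rw [← neg_sub p.1 p.2, ← neg_sub q.1 q.2, neg_inj]

/-- a function of one variable minus a function of an independent one has larger entropy -/
theorem H_le_sub {α β : Type*} [Fintype α] [Fintype β] {μ : α → ℝ} {ν : β → ℝ} (hμ : Law μ)
    (hν : Law ν) (f : α → R) (g : β → R) :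
    H μ f ≤ H (prod μ ν) (fun p => f p.1 - g p.2) := by
  have hl := law_prod hμ hν
  have h1 := H_prod hμ hν f (fun y : β => y)
  have h2 : H (prod μ ν) (fun p : α × β => (f p.1, p.2)) ≤
      H (prod μ ν) (fun p : α × β => f p.1 - g p.2) + H (prod μ ν) (fun p : α × β => p.2) := by
    refine H_add_of hl fun p q h3 h4 => ?_
    have h5 : f p.1 = f q.1 := by
      have h6 : g p.2 = g q.2 := by rw [h4]
      rw [h6] at h3
      exact sub_left_inj.1 h3
    exact Prod.ext h5 h4
  rw [H_pair_snd hμ (fun y : β => y)] at h2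
  linarith

/-- doubling constant does not increase under homomorphisms -/
theorem kappa_hom {μ : V → ℝ} (hμ : Law μ) (φ : V →+ Q) :
    hsub (push μ φ) (push μ φ) - H μ φ ≤ hsub μ μ - ent μ := by
  have hl := law_prod hμ hμ
  have h1 : H (prod μ μ) (fun p : V × V => p) +
      H (prod μ μ) (fun p : V × V => φ p.1 - φ p.2) ≤
      H (prod μ μ) (fun p : V × V => p.1 - p.2) +
      H (prod μ μ) (fun p : V × V => (φ p.1, p.2)) := by
    refine H_sub_of hl ?_ ?_ ?_
    · intro p q h
      rw [← map_sub, ← map_sub, h]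
    · intro p q h
      simp only [Prod.mk.injEq] at h
      rw [h.1, h.2]
    · intro p q h3 h4
      simp only [Prod.mk.injEq] at h4
      rw [h4.2] at h3
      exact Prod.ext (sub_left_inj.1 h3) h4.2
  have h2 := H_prod hμ hμ φ (fun y : V => y)
  have h3 : hsub (push μ φ) (push μ φ) = H (prod μ μ) (fun p : V × V => φ p.1 - φ p.2) := by
    unfold hsub
    rw [prod_push, H_push]
  rw [H_full2 hμ hμ] at h1
  rw [H_id μ] at h2
  rw [h3]
  unfold hsub
  linarith

/-- Kaimanovich-Vershik type inequality -/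
theorem H_three {μ : V → ℝ} (hμ : Law μ) :
    H (prod (prod μ μ) μ) (fun p : (V × V) × V => p.1.1 - p.1.2 - p.2) + ent μ ≤
      2 * hsub μ μ := by
  have hl := law_prod (law_prod hμ hμ) hμ
  have h1 : H (prod (prod μ μ) μ) (fun p : (V × V) × V => p) +
      H (prod (prod μ μ) μ) (fun p : (V × V) × V => p.1.1 - p.1.2 - p.2) ≤
      H (prod (prod μ μ) μ) (fun p : (V × V) × V => (p.1.1 - p.1.2, p.2)) +
      H (prod (prod μ μ) μ) (fun p : (V × V) × V => (p.1.1 - p.2, p.1.2)) := by
    refine H_sub_of hl ?_ ?_ ?_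
    · intro p q h
      simp only [Prod.mk.injEq] at h
      rw [h.1, h.2]
    · intro p q h
      simp only [Prod.mk.injEq] at h
      rw [sub_right_comm, sub_right_comm q.1.1, h.1, h.2]
    · intro p q h3 h4
      simp only [Prod.mk.injEq] at h3 h4
      have h5 : p.1.1 = q.1.1 := by
        have := h3.1
        rw [h4.2] at this
        exact sub_left_inj.1 this
      exact Prod.ext (Prod.ext h5 h4.2) h3.2
  have h2 := H_add_of hl (X := fun p : (V × V) × V => p.1.1 - p.1.2)
    (Y := fun p : (V × V) × V => p.2) (W := fun p : (V × V) × V => (p.1.1 - p.1.2, p.2))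
    (fun p q h3 h4 => Prod.ext h3 h4)
  have h3 := H_add_of hl (X := fun p : (V × V) × V => p.1.1 - p.2)
    (Y := fun p : (V × V) × V => p.1.2) (W := fun p : (V × V) × V => (p.1.1 - p.2, p.1.2))
    (fun p q h3 h4 => Prod.ext h3 h4)
  have h4 : H (prod (prod μ μ) μ) (fun p : (V × V) × V => p.1.1 - p.1.2) = hsub μ μ :=
    H_triple_12 hμ (fun p : V × V => p.1 - p.2)
  have h5 : H (prod (prod μ μ) μ) (fun p : (V × V) × V => p.1.1 - p.2) = hsub μ μ :=
    H_triple_13 hμ (fun p : V × V => p.1 - p.2)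
  have h6 : H (prod (prod μ μ) μ) (fun p : (V × V) × V => p.2) = ent μ := by
    rw [H_pair_snd (law_prod hμ hμ) (fun y : V => y), H_id]
  have h7 : H (prod (prod μ μ) μ) (fun p : (V × V) × V => p.1.2) = ent μ := by
    rw [H_triple_12 hμ (fun p : V × V => p.2), H_pair_snd hμ (fun y : V => y), H_id]
  rw [H_full3 hμ hμ hμ] at h1
  linarith

/-- `H (X - 2Y) ≤ H X + 3 κ` -/
theorem H_dilate {μ : V → ℝ} (hμ : Law μ) :
    H (prod μ μ) (fun p : V × V => p.1 - (p.2 + p.2)) ≤
      ent μ + 3 * (hsub μ μ - ent μ) := by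
  have hl := law_prod (law_prod hμ hμ) hμ
  have h1 : H (prod (prod μ μ) μ) (fun p : (V × V) × V => p) +
      H (prod (prod μ μ) μ) (fun p : (V × V) × V => p.1.1 - (p.1.2 + p.1.2)) ≤
      H (prod (prod μ μ) μ) (fun p : (V × V) × V => (p.1.1 - p.1.2 - p.2, p.2 - p.1.2)) +
      H (prod (prod μ μ) μ) (fun p : (V × V) × V => p.1) := by
    refine H_sub_of hl ?_ ?_ ?_
    · intro p q h
      simp only [Prod.mk.injEq] at h
      have e1 : p.1.1 - (p.1.2 + p.1.2) = (p.1.1 - p.1.2 - p.2) + (p.2 - p.1.2) := by abel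
      have e2 : q.1.1 - (q.1.2 + q.1.2) = (q.1.1 - q.1.2 - q.2) + (q.2 - q.1.2) := by abel
      rw [e1, e2, h.1, h.2]
    · intro p q h
      rw [h]
    · intro p q h3 h4
      simp only [Prod.mk.injEq] at h3
      have h5 : p.2 = q.2 := by
        have := h3.2
        rw [h4] at this
        exact sub_left_inj.1 this
      exact Prod.ext h4 h5
  have h2 := H_add_of hl (X := fun p : (V × V) × V => p.1.1 - p.1.2 - p.2)
    (Y := fun p : (V × V) × V => p.2 - p.1.2)
    (W := fun p : (V × V) × V => (p.1.1 - p.1.2 - p.2, p.2 - p.1.2))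
    (fun p q h3 h4 => Prod.ext h3 h4)
  have h3 := H_three hμ
  have h4 : H (prod (prod μ μ) μ) (fun p : (V × V) × V => p.2 - p.1.2) = hsub μ μ := by
    rw [H_triple_23 hμ (fun p : V × V => p.2 - p.1), H_swap]
    rfl
  have h5 : H (prod (prod μ μ) μ) (fun p : (V × V) × V => p.1) = ent μ + ent μ := by
    rw [H_triple_12 hμ (fun p : V × V => p), H_full2 hμ hμ]
  have h6 : H (prod (prod μ μ) μ) (fun p : (V × V) × V => p.1.1 - (p.1.2 + p.1.2)) =
      H (prod μ μ) (fun p : V × V => p.1 - (p.2 + p.2)) :=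
    H_triple_12 hμ (fun p : V × V => p.1 - (p.2 + p.2))
  rw [H_full3 hμ hμ hμ] at h1
  linarith

/-- the key inequality: the entropy of `Y` given `φ Y` grows by at most `3 κ` when `Y` is
replaced by `2 Y` -/
theorem key {ν : Q → ℝ} (hν : Law ν) (φ : Q →+ R) :
    H ν (fun y => y + y) - H ν (fun y => φ (y + y)) ≤
      ent ν - H ν φ + 3 * (hsub ν ν - ent ν) := by
  have hl := law_prod hν hν
  have h1 : H (prod ν ν) (fun p : Q × Q => (p.1, p.2 + p.2)) +
      H (prod ν ν) (fun p : Q × Q => φ p.1 - φ (p.2 + p.2)) ≤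
      H (prod ν ν) (fun p : Q × Q => p.1 - (p.2 + p.2)) +
      H (prod ν ν) (fun p : Q × Q => (p.1, φ (p.2 + p.2))) := by
    refine H_sub_of hl ?_ ?_ ?_
    · intro p q h
      rw [← map_sub, ← map_sub, h]
    · intro p q h
      simp only [Prod.mk.injEq] at h
      rw [h.1, h.2]
    · intro p q h3 h4
      simp only [Prod.mk.injEq] at h4
      rw [h4.1] at h3
      exact Prod.ext h4.1 (sub_right_inj.1 h3)
  have h2 := H_prod hν hν (fun y : Q => y) (fun y : Q => y + y)
  have h3 := H_prod hν hν (fun y : Q => y) (fun y : Q => φ (y + y))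
  have h4 := H_dilate hν
  have h5 := H_le_sub hν hν φ (fun y : Q => φ (y + y))
  rw [H_id ν] at h2 h3
  linarith

end H137.TwoPow
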